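import Pool.Agent.Work.MP_db9399_cr_helper46.CR

/-!
# MP_db9399, ALL SCALES: Hall at all scales from certificates at single vertices (helper89)

For every colour `b` there are two disjoint sides `A b`, `C b`, a partner map `N b` between them
(defined outside the tokens `W b`) and a bipartite reserve graph `S b` between the sides.
Every vertex of `MA` has one star for its copies in the sides `A b`, every vertex of `MC` has one
star for its copies in the sides `C b`.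
If every colour has an edge function `x` with the properties of `Cert` on both sides then all copies
can be matched at once by partner edges, reserve edges and stars.
`K` is the set of vertices of the side `C` which need not have neighbours in `MA` (think of
`K = K' = Miss`, `MA` and `MC` in `Miss`, no reserve edge inside `Miss`).
-/

set_option autoImplicit false

namespace Pool.Agent.Work.MP_db9399_as.helper89

open Finset Classical
open Pool.Agent.Work.MP_db9399_cr (Mch md)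

universe u v

/-- the certificate of one colour for the side `A` -/
structure Cert {V : Type u} (A C : Finset V) (W MA K : Finset V) (S : V → V → Prop)
    (x : V → V → ℝ) (e : V → ℝ) (Dm Dt Dp T0 m m' τ : ℝ) : Prop where
  hx : ∀ u ∈ A, ∀ y ∈ C, S u y → -τ ≤ x u y
  c1 : ∀ u ∈ A, (if u ∈ W then (1 : ℝ) else 0) - e u ≤ ∑ y ∈ C with S u y, x u y
  c2 : ∀ y ∈ C, ∑ u ∈ A with S u y, x u y ≤ if y ∈ W then (1 : ℝ) else 0
  d1 : ∀ u ∈ A, u ∉ W → Dm ≤ (#{y ∈ C | S u y} : ℝ)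
  d1t : ∀ u ∈ A, u ∈ W → Dt ≤ (#{y ∈ C | S u y} : ℝ)
  d1' : ∀ u ∈ A, (#{y ∈ C | S u y} : ℝ) ≤ Dp
  d2 : ∀ y ∈ C, (#{u ∈ A | S u y} : ℝ) ≤ Dp
  d3 : ∀ y ∈ C, (#{u ∈ A | u ∈ W ∧ S u y} : ℝ) ≤ T0
  c4 : ∀ y ∈ C, y ∉ K → m ≤ (#{u ∈ A | u ∈ MA ∧ S u y} : ℝ)
  c5 : ∀ u ∈ A, m' ≤ (#{y ∈ C | y ∉ K ∧ S u y} : ℝ)
  e0 : ∀ u ∈ A, u ∉ MA → e u ≤ 0

namespace Cert

variable {V : Type u} {A C : Finset V} {W MA K : Finset V} {S : V → V → Prop}
    {x : V → V → ℝ} {e : V → ℝ} {Dm Dt Dp T0 m m' τ : ℝ}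

/-- sums over edges, two ways -/
theorem edge_swap (X Y : Finset V) (f : V → V → ℝ) :
    ∑ u ∈ X, ∑ y ∈ Y with S u y, f u y = ∑ y ∈ Y, ∑ u ∈ X with S u y, f u y := by
  simp only [sum_filter]
  exact sum_comm

theorem edge_swap_card (X Y : Finset V) (R : V → V → Prop) :
    ∑ u ∈ X, (#{y ∈ Y | R u y} : ℝ) = ∑ y ∈ Y, (#{u ∈ X | R u y} : ℝ) := by
  have := @edge_swap V R X Y (fun _ _ => (1 : ℝ))
  simpa using this

/-- the two estimates for one colour -/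
theorem bound (h : Cert A C W MA K S x e Dm Dt Dp T0 m m' τ) (hτ : 0 ≤ τ) (hm : 0 ≤ m)
    {σ Ex : ℝ} (hDp : 0 < Dp) (hDm : 0 ≤ Dm) (hDt : 0 < Dt) (hT0 : 0 ≤ T0)
    (hEx : Dp - Dm + Dm * (T0 / Dt) ≤ Ex) (hσ : σ * Dp ≤ m * (m' / Dp) - Ex) {N : V → V}
    (hN : ∀ u ∈ A, u ∉ W → N u ∈ C ∧ N u ∉ W ∧ N (N u) = u)
    (U : Finset V) (hU : U ⊆ A) (Y : Finset V)
    (hY : ∀ y, y ∈ Y ↔ y ∈ C ∧ ∃ u ∈ U, (u ∉ W ∧ N u = y) ∨ S u y)
    (hle : #Y ≤ #U) :
    (#U : ℝ) - #Y ≤ ∑ u ∈ U with u ∈ MA, e u + τ * Ex * #U ∧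
      σ * #U ≤ (#{u ∈ U | u ∈ MA} : ℝ) := by
  have hYC : Y ⊆ C := fun y hy => ((hY y).1 hy).1
  have hleR : (#Y : ℝ) ≤ #U := by exact_mod_cast hle
  -- no reserve edge leaves `U` outside `Y`
  have hUY : ∀ u ∈ U, ∀ y ∈ C, S u y → y ∈ Y := fun u hu y hy hS =>
    (hY y).2 ⟨hy, u, hu, Or.inr hS⟩
  have hfil : ∀ u ∈ U, ({y ∈ C | S u y} : Finset V) = {y ∈ Y | S u y} := by
    intro u hu
    ext y
    simp only [mem_filter]
    exact ⟨fun hy => ⟨hUY u hu y hy.1 hy.2, hy.2⟩, fun hy => ⟨hYC hy.1, hy.2⟩⟩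
  -- partners
  have hpart : (#{u ∈ U | u ∉ W} : ℝ) ≤ #{y ∈ Y | y ∉ W} := by
    norm_cast
    refine card_le_card_of_injOn N ?_ ?_
    · intro u hu
      rw [mem_coe, mem_filter] at hu ⊢
      obtain ⟨h1, h2, _⟩ := hN u (hU hu.1) hu.2
      exact ⟨(hY _).2 ⟨h1, u, hu.1, Or.inl ⟨hu.2, rfl⟩⟩, h2⟩
    · intro u hu v hv huv
      rw [mem_coe, mem_filter] at hu hv
      rw [← (hN u (hU hu.1) hu.2).2.2, huv, (hN v (hU hv.1) hv.2).2.2]
  have hUc : (#U : ℝ) = #{u ∈ U | u ∈ W} + #{u ∈ U | u ∉ W} := by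
    norm_cast
    exact (card_filter_add_card_filter_not (s := U) (fun u => u ∈ W)).symm
  have hYc : (#Y : ℝ) = #{u ∈ Y | u ∈ W} + #{u ∈ Y | u ∉ W} := by
    norm_cast
    exact (card_filter_add_card_filter_not (s := Y) (fun u => u ∈ W)).symm
  -- C1 summed
  have h1 : (#{u ∈ U | u ∈ W} : ℝ) - ∑ u ∈ U, e u ≤ ∑ u ∈ U, ∑ y ∈ Y with S u y, x u y := by
    have : (#{u ∈ U | u ∈ W} : ℝ) = ∑ u ∈ U, if u ∈ W then (1 : ℝ) else 0 := by
      rw [sum_boole]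
    rw [this, ← sum_sub_distrib]
    refine sum_le_sum fun u hu => ?_
    rw [← hfil u hu]
    exact h.c1 u (hU hu)
  -- C2 summed
  have h2 : ∑ y ∈ Y, ∑ u ∈ A with S u y, x u y ≤ (#{u ∈ Y | u ∈ W} : ℝ) := by
    have : (#{u ∈ Y | u ∈ W} : ℝ) = ∑ u ∈ Y, if u ∈ W then (1 : ℝ) else 0 := by
      rw [sum_boole]
    rw [this]
    exact sum_le_sum fun y hy => h.c2 y (hYC hy)
  -- split of the sides
  have hsplit : ∀ (P : V → V → Prop) (f : V → V → ℝ) (y : V),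
      ∑ u ∈ A with P u y, f u y = ∑ u ∈ U with P u y, f u y + ∑ u ∈ A \ U with P u y, f u y := by
    intro P f y
    simp only [sum_filter]
    rw [add_comm, sum_sdiff hU]
  have h3 : ∑ u ∈ U, ∑ y ∈ Y with S u y, x u y = ∑ y ∈ Y, ∑ u ∈ A with S u y, x u y
      - ∑ y ∈ Y, ∑ u ∈ A \ U with S u y, x u y := by
    rw [edge_swap, ← sum_sub_distrib]
    refine sum_congr rfl fun y _ => ?_
    rw [hsplit S x y]
    ring
  -- number of edges between `A \ U` and `Y`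
  have h4 : ∑ y ∈ Y, (#{u ∈ A \ U | S u y} : ℝ) ≤ Ex * #U := by
    have e1 : ∑ y ∈ Y, (#{u ∈ A | S u y} : ℝ) ≤ Dp * #Y := by
      rw [mul_comm, ← nsmul_eq_mul]
      exact sum_le_card_nsmul _ _ _ fun y hy => h.d2 y (hYC hy)
    have e2 : Dm * #{u ∈ U | u ∉ W} ≤ ∑ u ∈ U, (#{y ∈ Y | S u y} : ℝ) := by
      have g1 : Dm * #{u ∈ U | u ∉ W} ≤ ∑ u ∈ U with u ∉ W, (#{y ∈ Y | S u y} : ℝ) := by
        rw [mul_comm, ← nsmul_eq_mul]
        refine card_nsmul_le_sum _ _ _ fun u hu => ?_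
        rw [mem_filter] at hu
        rw [← hfil u hu.1]
        exact h.d1 u (hU hu.1) hu.2
      exact g1.trans (sum_le_sum_of_subset_of_nonneg (filter_subset _ _)
        fun _ _ _ => Nat.cast_nonneg _)
    rw [edge_swap_card] at e2
    have e3 : ∑ y ∈ Y, (#{u ∈ A | S u y} : ℝ) =
        ∑ y ∈ Y, (#{u ∈ U | S u y} : ℝ) + ∑ y ∈ Y, (#{u ∈ A \ U | S u y} : ℝ) := by
      rw [← sum_add_distrib]
      refine sum_congr rfl fun y _ => ?_
      have := hsplit S (fun _ _ => (1 : ℝ)) y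
      simpa using this
    have e4 : Dp * #Y ≤ Dp * #U := mul_le_mul_of_nonneg_left hleR hDp.le
    -- tokens in `U`
    have e5 : Dt * #{u ∈ U | u ∈ W} ≤ T0 * #Y := by
      have g1 : Dt * #{u ∈ U | u ∈ W} ≤ ∑ u ∈ U with u ∈ W, (#{y ∈ Y | S u y} : ℝ) := by
        rw [mul_comm, ← nsmul_eq_mul]
        refine card_nsmul_le_sum _ _ _ fun u hu => ?_
        rw [mem_filter] at hu
        rw [← hfil u hu.1]
        exact h.d1t u (hU hu.1) hu.2
      rw [edge_swap_card] at g1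
      refine g1.trans ?_
      rw [mul_comm, ← nsmul_eq_mul]
      refine sum_le_card_nsmul _ _ _ fun y hy => ?_
      refine le_trans ?_ (h.d3 y (hYC hy))
      norm_cast
      refine card_le_card fun u hu => ?_
      rw [mem_filter, mem_filter] at hu
      rw [mem_filter]
      exact ⟨hU hu.1.1, hu.1.2, hu.2⟩
    have e6 : (#{u ∈ U | u ∈ W} : ℝ) ≤ T0 / Dt * #U := by
      rw [div_mul_eq_mul_div, le_div_iff₀ hDt]
      have := mul_le_mul_of_nonneg_left hleR hT0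
      linarith
    have e7 : (#{u ∈ U | u ∉ W} : ℝ) = #U - #{u ∈ U | u ∈ W} := by linarith
    rw [e7] at e2
    have e8 := mul_le_mul_of_nonneg_left e6 hDm
    have e9 := mul_le_mul_of_nonneg_right hEx (Nat.cast_nonneg (α := ℝ) #U)
    nlinarith
  have h5 : -∑ y ∈ Y, ∑ u ∈ A \ U with S u y, x u y ≤ τ * (Ex * #U) := by
    have e1 : ∑ y ∈ Y, ∑ u ∈ A \ U with S u y, (-τ) ≤ ∑ y ∈ Y, ∑ u ∈ A \ U with S u y, x u y := by
      refine sum_le_sum fun y hy => sum_le_sum fun u hu => ?_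
      simp only [mem_filter, mem_sdiff] at hu
      exact h.hx u hu.1.1 y (hYC hy) hu.2
    have e2 : ∑ y ∈ Y, ∑ u ∈ A \ U with S u y, (-τ) = -τ * ∑ y ∈ Y, (#{u ∈ A \ U | S u y} : ℝ) := by
      rw [mul_sum]
      refine sum_congr rfl fun y _ => ?_
      rw [sum_const, nsmul_eq_mul]
      ring
    rw [e2] at e1
    have e3 := mul_le_mul_of_nonneg_left h4 hτ
    linarith
  -- `e` outside `MA`
  have h6 : ∑ u ∈ U, e u ≤ ∑ u ∈ U with u ∈ MA, e u := by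
    rw [← sum_filter_add_sum_filter_not U (fun u => u ∈ MA)]
    have : ∑ u ∈ U with u ∉ MA, e u ≤ 0 := by
      refine sum_nonpos fun u hu => ?_
      simp only [mem_filter] at hu
      exact h.e0 u (hU hu.1) hu.2
    linarith
  refine ⟨by nlinarith, ?_⟩
  -- C4
  set Z : Finset V := {y ∈ Y | y ∉ K} with hZ
  have hZY : Z ⊆ Y := filter_subset _ _
  have hZC : ∀ y ∈ Z, y ∈ C ∧ y ∉ K := fun y hy => ⟨hYC (hZY hy), (mem_filter.1 hy).2⟩
  have h4' : ∑ y ∈ Z, (#{u ∈ A \ U | S u y} : ℝ) ≤ Ex * #U :=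
    (sum_le_sum_of_subset_of_nonneg hZY fun y _ _ => Nat.cast_nonneg _).trans h4
  have e1 : m * #Z ≤ ∑ y ∈ Z, (#{u ∈ A | u ∈ MA ∧ S u y} : ℝ) := by
    rw [mul_comm, ← nsmul_eq_mul]
    exact card_nsmul_le_sum _ _ _ fun y hy => h.c4 y (hZC y hy).1 (hZC y hy).2
  have e2 : ∑ y ∈ Z, (#{u ∈ A | u ∈ MA ∧ S u y} : ℝ) ≤
      ∑ y ∈ Z, (#{u ∈ U | u ∈ MA ∧ S u y} : ℝ) + ∑ y ∈ Z, (#{u ∈ A \ U | S u y} : ℝ) := by
    rw [← sum_add_distrib]
    refine sum_le_sum fun y _ => ?_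
    norm_cast
    refine (card_le_card ?_).trans (card_union_le _ _)
    intro u hu
    simp only [mem_filter, mem_union, mem_sdiff] at hu ⊢
    by_cases hu1 : u ∈ U
    · exact Or.inl ⟨hu1, hu.2⟩
    · exact Or.inr ⟨⟨hu.1, hu1⟩, hu.2.2⟩
  have e3 : ∑ y ∈ Z, (#{u ∈ U | u ∈ MA ∧ S u y} : ℝ) ≤ Dp * #{u ∈ U | u ∈ MA} := by
    have g1 : ∑ y ∈ Z, (#{u ∈ U | u ∈ MA ∧ S u y} : ℝ) =
        ∑ y ∈ Z, (#{u ∈ {u ∈ U | u ∈ MA} | S u y} : ℝ) := by
      refine sum_congr rfl fun y _ => ?_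
      rw [filter_filter]
    rw [g1, ← edge_swap_card, mul_comm, ← nsmul_eq_mul]
    refine sum_le_card_nsmul _ _ _ fun u hu => ?_
    simp only [mem_filter] at hu
    refine le_trans ?_ (h.d1' u (hU hu.1))
    norm_cast
    refine card_le_card fun y hy => ?_
    rw [mem_filter] at hy ⊢
    exact ⟨(hZC y hy.1).1, hy.2⟩
  have e4 : m' * #U ≤ Dp * #Z := by
    have g1 : m' * #U ≤ ∑ u ∈ U, (#{y ∈ Z | S u y} : ℝ) := by
      rw [mul_comm, ← nsmul_eq_mul]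
      refine card_nsmul_le_sum _ _ _ fun u hu => (h.c5 u (hU hu)).trans ?_
      norm_cast
      refine card_le_card fun y hy => ?_
      rw [mem_filter] at hy ⊢
      exact ⟨mem_filter.2 ⟨hUY u hu y hy.1 hy.2.2, hy.2.1⟩, hy.2.2⟩
    rw [edge_swap_card] at g1
    have g2 : ∑ y ∈ Z, (#{u ∈ U | S u y} : ℝ) ≤ Dp * #Z := by
      rw [mul_comm, ← nsmul_eq_mul]
      refine sum_le_card_nsmul _ _ _ fun y hy => ?_
      refine le_trans ?_ (h.d2 y (hZC y hy).1)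
      norm_cast
      exact card_le_card (filter_subset_filter _ hU)
    linarith
  have e5 : (m' / Dp) * #U ≤ #Z := by
    rw [div_mul_eq_mul_div, div_le_iff₀ hDp]
    linarith
  have e6 := mul_le_mul_of_nonneg_left e5 hm
  have e7 : σ * Dp * #U ≤ (m * (m' / Dp) - Ex) * #U :=
    mul_le_mul_of_nonneg_right hσ (Nat.cast_nonneg _)
  have e8 : Dp * (σ * #U) ≤ Dp * #{u ∈ U | u ∈ MA} := by nlinarith
  exact le_of_mul_le_mul_left e8 hDp

end Cert

section Global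

variable {V : Type u} {B : Type v} [Fintype V] [Fintype B]

/-- the neighbours of the copy `(b, u)` : partner, reserve neighbours, star -/
noncomputable def lst (C : B → Finset V) (N : B → V → V) (W : B → Finset V) (MA : Finset V)
    (S : B → V → V → Prop) (p : B × V) : Finset ((B × V) ⊕ V) :=
  {q | (∃ y ∈ C p.1, ((p.2 ∉ W p.1 ∧ N p.1 p.2 = y) ∨ S p.1 p.2 y) ∧ q = Sum.inl (p.1, y)) ∨
    (p.2 ∈ MA ∧ q = Sum.inr p.2)}

theorem mem_lst {C : B → Finset V} {N : B → V → V} {W : B → Finset V} {MA : Finset V}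
    {S : B → V → V → Prop} {p : B × V} {q : (B × V) ⊕ V} :
    q ∈ lst C N W MA S p ↔
      (∃ y ∈ C p.1, ((p.2 ∉ W p.1 ∧ N p.1 p.2 = y) ∨ S p.1 p.2 y) ∧ q = Sum.inl (p.1, y)) ∨
      (p.2 ∈ MA ∧ q = Sum.inr p.2) := by
  simp only [lst, mem_filter, mem_univ, true_and]

/-- Hall for the copies on one side -/
theorem hall (A C : B → Finset V) (N : B → V → V) (W : B → Finset V) (MA K : Finset V)
    (S : B → V → V → Prop) (x : B → V → V → ℝ) (e : B → V → ℝ) (Dm Dt Dp T0 m m' τ Ex σ z : ℝ)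
    (h : ∀ b, Cert (A b) (C b) (W b) MA K (S b) (x b) (e b) Dm Dt Dp T0 m m' τ)
    (hN : ∀ b, ∀ u ∈ A b, u ∉ W b → N b u ∈ C b ∧ N b u ∉ W b ∧ N b (N b u) = u)
    (hτ : 0 ≤ τ) (hm : 0 ≤ m) (hDp : 0 < Dp) (hDm : 0 ≤ Dm) (hDt : 0 < Dt) (hT0 : 0 ≤ T0)
    (hEx0 : 0 ≤ Ex) (hEx : Dp - Dm + Dm * (T0 / Dt) ≤ Ex) (hσ0 : 0 < σ)
    (hσ : σ * Dp ≤ m * (m' / Dp) - Ex)
    (he0 : ∀ b, ∀ u ∈ A b, u ∈ MA → 0 ≤ e b u)
    (he : ∀ u ∈ MA, ∑ b with u ∈ A b, e b u ≤ 1 / 2)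
    (hz : ∀ u ∈ MA, (#{b | u ∈ A b} : ℝ) ≤ z) (hzz : z * (τ * Ex) ≤ σ / 2) :
    ∃ f : {p : B × V // p.2 ∈ A p.1} → (B × V) ⊕ V, Function.Injective f ∧
      ∀ p, f p ∈ lst C N W MA S p.1 := by
  refine (Finset.all_card_le_biUnion_card_iff_exists_injective
    (fun p : {p : B × V // p.2 ∈ A p.1} => lst C N W MA S p.1)).1 ?_
  intro U0
  set U : B → Finset V := fun b => {u | ∃ hu : u ∈ A b, (⟨(b, u), hu⟩ : {p : B × V // p.2 ∈ A p.1})
    ∈ U0} with hU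
  have hUm : ∀ b u, u ∈ U b ↔ ∃ hu : u ∈ A b, (⟨(b, u), hu⟩ : {p : B × V // p.2 ∈ A p.1}) ∈ U0 := by
    intro b u
    simp only [hU, mem_filter, mem_univ, true_and]
  have hUA : ∀ b, U b ⊆ A b := fun b u hu => ((hUm b u).1 hu).1
  set Y : B → Finset V := fun b => {y ∈ C b | ∃ u ∈ U b, (u ∉ W b ∧ N b u = y) ∨ S b u y} with hY
  have hYm : ∀ b y, y ∈ Y b ↔ y ∈ C b ∧ ∃ u ∈ U b, (u ∉ W b ∧ N b u = y) ∨ S b u y := by
    intro b y
    simp only [hY, mem_filter]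
  set M : Finset V := {u ∈ MA | ∃ b, u ∈ U b} with hM
  -- size of `U0`
  have c1 : #U0 = ∑ b, #(U b) := by
    rw [← card_sigma]
    refine card_bij (fun p _ => (⟨p.1.1, p.1.2⟩ : Σ _ : B, V)) ?_ ?_ ?_
    · rintro ⟨⟨b, u⟩, hu⟩ hp
      rw [mem_sigma]
      exact ⟨mem_univ _, (hUm b u).2 ⟨hu, hp⟩⟩
    · rintro ⟨⟨b, u⟩, hu⟩ _ ⟨⟨b', u'⟩, hu'⟩ _ heq
      simp only [Sigma.mk.injEq, heq_eq_eq] at heq
      obtain ⟨rfl, rfl⟩ := heq
      rfl
    · rintro ⟨b, u⟩ hp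
      rw [mem_sigma] at hp
      obtain ⟨hu, hp2⟩ := (hUm b u).1 hp.2
      exact ⟨_, hp2, rfl⟩
  -- size of the neighbourhood
  have c2 : ∑ b, #(Y b) + #M ≤ #(U0.biUnion fun p => lst C N W MA S p.1) := by
    have g1 : ∑ b, #(Y b) = #(univ.sigma Y) := (card_sigma _ _).symm
    have g2 : #((univ.sigma Y).disjSum M) = #(univ.sigma Y) + #M := card_disjSum _ _
    rw [g1, ← g2]
    refine card_le_card_of_injOn (Sum.map (fun p => (p.1, p.2)) id) ?_ ?_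
    · intro q hq
      rw [mem_coe] at hq ⊢
      rw [mem_biUnion]
      rw [mem_disjSum] at hq
      rcases hq with ⟨⟨b, y⟩, hp, rfl⟩ | ⟨v, hv, rfl⟩
      · rw [mem_sigma] at hp
        obtain ⟨hy, u, hu, hr⟩ := (hYm b y).1 hp.2
        obtain ⟨hu1, hu2⟩ := (hUm b u).1 hu
        exact ⟨_, hu2, mem_lst.2 (Or.inl ⟨y, hy, hr, rfl⟩)⟩
      · simp only [hM, mem_filter] at hv
        obtain ⟨hv1, b, hb⟩ := hv
        obtain ⟨hu1, hu2⟩ := (hUm b v).1 hb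
        exact ⟨_, hu2, mem_lst.2 (Or.inr ⟨hv1, rfl⟩)⟩
    · rintro (⟨b, y⟩ | v) _ (⟨b', y'⟩ | v') _ heq
      · simp only [Sum.map_inl, Sum.inl.injEq, Prod.mk.injEq] at heq
        obtain ⟨rfl, rfl⟩ := heq
        rfl
      · simp at heq
      · simp at heq
      · simpa using heq
  -- the estimate
  have c3 : ∀ b, (#(U b) : ℝ) - #(Y b) ≤
      ∑ u ∈ U b with u ∈ MA, (e b u + τ * Ex / σ) := by
    intro b
    by_cases hle : #(Y b) ≤ #(U b)
    · obtain ⟨g1, g2⟩ := (h b).bound hτ hm hDp hDm hDt hT0 hEx hσ (hN b) (U b) (hUA b) (Y b) (hYm b) hle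
      rw [sum_add_distrib, sum_const, nsmul_eq_mul]
      refine g1.trans (add_le_add le_rfl ?_)
      have g3 : 0 ≤ τ * Ex := mul_nonneg hτ hEx0
      have g4 := mul_le_mul_of_nonneg_left g2 (div_nonneg g3 hσ0.le)
      have g5 : τ * Ex / σ * (σ * #(U b)) = τ * Ex * #(U b) := by
        field_simp
      rw [g5] at g4
      linarith
    · have g1 : (#(U b) : ℝ) - #(Y b) ≤ 0 := by
        have : (#(U b) : ℝ) ≤ #(Y b) := by exact_mod_cast (not_le.1 hle).le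
        linarith
      refine g1.trans (sum_nonneg fun u hu => ?_)
      simp only [mem_filter] at hu
      exact add_nonneg (he0 b u (hUA b hu.1) hu.2)
        (div_nonneg (mul_nonneg hτ hEx0) hσ0.le)
  have c4 : ∑ b, ∑ u ∈ U b with u ∈ MA, (e b u + τ * Ex / σ) ≤ #M := by
    have g1 : ∑ b, ∑ u ∈ U b with u ∈ MA, (e b u + τ * Ex / σ) =
        ∑ u ∈ M, ∑ b with u ∈ U b, (e b u + τ * Ex / σ) := by
      have : ∀ b, ∑ u ∈ U b with u ∈ MA, (e b u + τ * Ex / σ) =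
          ∑ u ∈ M, if u ∈ U b then (e b u + τ * Ex / σ) else 0 := by
        intro b
        rw [← sum_filter]
        refine sum_congr ?_ fun _ _ => rfl
        ext u
        simp only [hM, mem_filter]
        exact ⟨fun g => ⟨⟨g.2, b, g.1⟩, g.1⟩, fun g => ⟨g.2, g.1.1⟩⟩
      simp only [this]
      rw [sum_comm]
      refine sum_congr rfl fun u _ => ?_
      rw [sum_filter]
    rw [g1]
    have g2 : ∀ u ∈ M, ∑ b with u ∈ U b, (e b u + τ * Ex / σ) ≤ 1 := by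
      intro u hu
      simp only [hM, mem_filter] at hu
      have g3 : ∑ b with u ∈ U b, (e b u + τ * Ex / σ) ≤
          ∑ b with u ∈ A b, (e b u + τ * Ex / σ) := by
        refine sum_le_sum_of_subset_of_nonneg ?_ ?_
        · intro b hb
          simp only [mem_filter, mem_univ, true_and] at hb ⊢
          exact hUA b hb
        · intro b hb _
          simp only [mem_filter, mem_univ, true_and] at hb
          exact add_nonneg (he0 b u hb hu.1) (div_nonneg (mul_nonneg hτ hEx0) hσ0.le)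
      refine g3.trans ?_
      rw [sum_add_distrib, sum_const, nsmul_eq_mul]
      have g4 := he u hu.1
      have g5 : (#{b | u ∈ A b} : ℝ) * (τ * Ex / σ) ≤ 1 / 2 := by
        have k1 : 0 ≤ τ * Ex / σ := div_nonneg (mul_nonneg hτ hEx0) hσ0.le
        have k2 := mul_le_mul_of_nonneg_right (hz u hu.1) k1
        refine k2.trans ?_
        rw [← mul_div_assoc, div_le_iff₀ hσ0]
        linarith
      linarith
    have g3 := sum_le_sum g2
    simpa using g3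
  have c5 : (∑ b, (#(U b) : ℝ)) - ∑ b, (#(Y b) : ℝ) ≤ #M := by
    rw [← sum_sub_distrib]
    exact (sum_le_sum fun b _ => c3 b).trans c4
  have c6 : ∑ b, #(U b) ≤ ∑ b, #(Y b) + #M := by
    have : (∑ b, (#(U b) : ℝ)) ≤ ∑ b, (#(Y b) : ℝ) + #M := by linarith
    exact_mod_cast this
  rw [c1]
  exact c6.trans c2

/-- all copies on both sides matched at once -/
theorem all_colours (A C : B → Finset V) (N : B → V → V) (W : B → Finset V) (MA MC K K' : Finset V)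
    (S : B → V → V → Prop) (x x' : B → V → V → ℝ) (e e' : B → V → ℝ)
    (Dm Dt Dp T0 m m' τ Ex σ z : ℝ)
    (hAC : ∀ b, Disjoint (A b) (C b)) (hMM : Disjoint MA MC)
    (h : ∀ b, Cert (A b) (C b) (W b) MA K (S b) (x b) (e b) Dm Dt Dp T0 m m' τ)
    (h' : ∀ b, Cert (C b) (A b) (W b) MC K' (fun u v => S b v u) (x' b) (e' b) Dm Dt Dp T0 m m' τ)
    (hN : ∀ b, ∀ u ∈ A b, u ∉ W b → N b u ∈ C b ∧ N b u ∉ W b ∧ N b (N b u) = u)
    (hN' : ∀ b, ∀ u ∈ C b, u ∉ W b → N b u ∈ A b ∧ N b u ∉ W b ∧ N b (N b u) = u)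
    (hτ : 0 ≤ τ) (hm : 0 ≤ m) (hDp : 0 < Dp) (hDm : 0 ≤ Dm) (hDt : 0 < Dt) (hT0 : 0 ≤ T0)
    (hEx0 : 0 ≤ Ex) (hEx : Dp - Dm + Dm * (T0 / Dt) ≤ Ex) (hσ0 : 0 < σ)
    (hσ : σ * Dp ≤ m * (m' / Dp) - Ex)
    (he0 : ∀ b, ∀ u ∈ A b, u ∈ MA → 0 ≤ e b u) (he0' : ∀ b, ∀ u ∈ C b, u ∈ MC → 0 ≤ e' b u)
    (he : ∀ u ∈ MA, ∑ b with u ∈ A b, e b u ≤ 1 / 2)
    (he' : ∀ u ∈ MC, ∑ b with u ∈ C b, e' b u ≤ 1 / 2)
    (hz : ∀ u ∈ MA, (#{b | u ∈ A b} : ℝ) ≤ z) (hz' : ∀ u ∈ MC, (#{b | u ∈ C b} : ℝ) ≤ z)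
    (hzz : z * (τ * Ex) ≤ σ / 2) :
    ∃ F : B → V → V,
      (∀ b, ∀ v ∈ A b, (F b v = v ∧ v ∈ MA) ∨ (F b v ∈ C b ∧ F b (F b v) = v ∧
        ((v ∉ W b ∧ N b v = F b v) ∨ S b v (F b v)))) ∧
      (∀ b, ∀ v ∈ C b, (F b v = v ∧ v ∈ MC) ∨ (F b v ∈ A b ∧ F b (F b v) = v ∧
        ((v ∉ W b ∧ N b v = F b v) ∨ S b (F b v) v))) ∧
      ∀ v, #{b | (v ∈ A b ∨ v ∈ C b) ∧ F b v = v} ≤ 1 := by
  obtain ⟨f, hf1, hf2⟩ := hall A C N W MA K S x e Dm Dt Dp T0 m m' τ Ex σ z h hN hτ hm hDp hDm hDt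
    hT0 hEx0 hEx hσ0 hσ he0 he hz hzz
  obtain ⟨g, hg1, hg2⟩ := hall C A N W MC K' (fun b u v => S b v u) x' e' Dm Dt Dp T0 m m' τ Ex σ z
    h' hN' hτ hm hDp hDm hDt hT0 hEx0 hEx hσ0 hσ he0' he' hz' hzz
  set M1 : Finset (((B × V) ⊕ V) × ((B × V) ⊕ V)) :=
    univ.image (fun p : {p : B × V // p.2 ∈ A p.1} => (Sum.inl p.1, f p)) with hM1
  set M2 : Finset (((B × V) ⊕ V) × ((B × V) ⊕ V)) :=
    univ.image (fun p : {p : B × V // p.2 ∈ C p.1} => (g p, Sum.inl p.1)) with hM2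
  have hM1m : ∀ q, q ∈ M1 ↔ ∃ p : {p : B × V // p.2 ∈ A p.1}, q = (Sum.inl p.1, f p) := by
    intro q
    simp only [hM1, mem_image, mem_univ, true_and, eq_comm]
  have hM2m : ∀ q, q ∈ M2 ↔ ∃ p : {p : B × V // p.2 ∈ C p.1}, q = (g p, Sum.inl p.1) := by
    intro q
    simp only [hM2, mem_image, mem_univ, true_and, eq_comm]
  obtain ⟨M, hMsub, hMm, hMx, hMy⟩ := md (Prod.fst : ((B × V) ⊕ V) × ((B × V) ⊕ V) → _) Prod.snd
    M1 M2
    ⟨by
      intro a ha b hb hab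
      obtain ⟨p, rfl⟩ := (hM1m a).1 ha
      obtain ⟨q, rfl⟩ := (hM1m b).1 hb
      have : p = q := Subtype.ext (Sum.inl.inj hab)
      rw [this],
    by
      intro a ha b hb hab
      obtain ⟨p, rfl⟩ := (hM1m a).1 ha
      obtain ⟨q, rfl⟩ := (hM1m b).1 hb
      rw [hf1 hab]⟩
    ⟨by
      intro a ha b hb hab
      obtain ⟨p, rfl⟩ := (hM2m a).1 ha
      obtain ⟨q, rfl⟩ := (hM2m b).1 hb
      rw [hg1 hab],
    by
      intro a ha b hb hab
      obtain ⟨p, rfl⟩ := (hM2m a).1 ha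
      obtain ⟨q, rfl⟩ := (hM2m b).1 hb
      have : p = q := Subtype.ext (Sum.inl.inj hab)
      rw [this]⟩
  -- the relation along an edge of `M`
  have hrel : ∀ b u b' y, (Sum.inl (b, u), Sum.inl (b', y)) ∈ M →
      b = b' ∧ u ∈ A b ∧ y ∈ C b ∧ ((u ∉ W b ∧ N b u = y) ∨ S b u y) := by
    intro b u b' y hq
    rcases mem_union.1 (hMsub hq) with hq | hq
    · obtain ⟨p, hp⟩ := (hM1m _).1 hq
      simp only [Prod.mk.injEq, Sum.inl.injEq] at hp
      have h2 := hf2 p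
      rw [← hp.2, ← hp.1, mem_lst] at h2
      rcases h2 with ⟨y', hy', hr, heq⟩ | ⟨_, heq⟩
      · simp only [Sum.inl.injEq, Prod.mk.injEq] at heq
        obtain ⟨rfl, rfl⟩ := heq
        have h3 := p.2
        rw [← hp.1] at h3
        exact ⟨rfl, h3, hy', hr⟩
      · exact absurd heq (by simp)
    · obtain ⟨p, hp⟩ := (hM2m _).1 hq
      simp only [Prod.mk.injEq, Sum.inl.injEq] at hp
      have h2 := hg2 p
      rw [← hp.2, ← hp.1, mem_lst] at h2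
      rcases h2 with ⟨y', hy', hr, heq⟩ | ⟨_, heq⟩
      · simp only [Sum.inl.injEq, Prod.mk.injEq] at heq
        obtain ⟨rfl, rfl⟩ := heq
        have h3 := p.2
        rw [← hp.2] at h3
        refine ⟨rfl, hy', h3, ?_⟩
        rcases hr with ⟨hr1, hr2⟩ | hr
        · left
          obtain ⟨k1, k2, k3⟩ := hN' _ _ h3 hr1
          exact ⟨by rw [← hr2]; exact k2, by rw [← hr2]; exact k3⟩
        · exact Or.inr hr
      · exact absurd heq (by simp)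
  have hstar : ∀ b u v, (Sum.inl (b, u), Sum.inr v) ∈ M → u = v ∧ u ∈ MA := by
    intro b u v hq
    rcases mem_union.1 (hMsub hq) with hq | hq
    · obtain ⟨p, hp⟩ := (hM1m _).1 hq
      simp only [Prod.mk.injEq] at hp
      have h2 := hf2 p
      rw [← hp.2, ← Sum.inl.inj hp.1, mem_lst] at h2
      rcases h2 with ⟨y', hy', hr, heq⟩ | ⟨h3, heq⟩
      · exact absurd heq (by simp)
      · simp only [Sum.inr.injEq] at heq
        exact ⟨heq.symm, h3⟩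
    · obtain ⟨p, hp⟩ := (hM2m _).1 hq
      exact absurd (congrArg Prod.snd hp) (by simp)
  have hstar' : ∀ b u v, (Sum.inr v, Sum.inl (b, u)) ∈ M → u = v ∧ u ∈ MC := by
    intro b u v hq
    rcases mem_union.1 (hMsub hq) with hq | hq
    · obtain ⟨p, hp⟩ := (hM1m _).1 hq
      exact absurd (congrArg Prod.fst hp) (by simp)
    · obtain ⟨p, hp⟩ := (hM2m _).1 hq
      simp only [Prod.mk.injEq] at hp
      have h2 := hg2 p
      rw [← hp.1, ← Sum.inl.inj hp.2, mem_lst] at h2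
      rcases h2 with ⟨y', hy', hr, heq⟩ | ⟨h3, heq⟩
      · exact absurd heq (by simp)
      · simp only [Sum.inr.injEq] at heq
        exact ⟨heq.symm, h3⟩
  have hcovA : ∀ b, ∀ u ∈ A b, ∃ q, (Sum.inl (b, u), q) ∈ M := by
    intro b u hu
    obtain ⟨⟨a, c⟩, ha, hb⟩ := hMx (Sum.inl (b, u), f ⟨(b, u), hu⟩) ((hM1m _).2 ⟨⟨(b, u), hu⟩, rfl⟩)
    simp only at hb
    exact ⟨c, hb ▸ ha⟩
  have hcovC : ∀ b, ∀ u ∈ C b, ∃ q, (q, Sum.inl (b, u)) ∈ M := by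
    intro b u hu
    obtain ⟨⟨a, c⟩, ha, hb⟩ := hMy (g ⟨(b, u), hu⟩, Sum.inl (b, u)) ((hM2m _).2 ⟨⟨(b, u), hu⟩, rfl⟩)
    simp only at hb
    exact ⟨a, hb ▸ ha⟩
  -- the map
  have hF : ∀ b v, ∃ w, (v ∈ A b → (Sum.inl (b, v), Sum.inl (b, w)) ∈ M ∨
      (w = v ∧ (Sum.inl (b, v), Sum.inr v) ∈ M)) ∧ (v ∈ C b →
      (Sum.inl (b, w), Sum.inl (b, v)) ∈ M ∨ (w = v ∧ (Sum.inr v, Sum.inl (b, v)) ∈ M)) := by
    intro b v
    by_cases hv : v ∈ A b
    · have hvC : v ∉ C b := Finset.disjoint_left.1 (hAC b) hv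
      obtain ⟨q, hq⟩ := hcovA b v hv
      rcases q with ⟨b', w⟩ | w
      · have := (hrel _ _ _ _ hq).1
        subst this
        exact ⟨w, fun _ => Or.inl hq, fun hc => absurd hc hvC⟩
      · obtain ⟨rfl, _⟩ := hstar _ _ _ hq
        exact ⟨v, fun _ => Or.inr ⟨rfl, hq⟩, fun hc => absurd hc hvC⟩
    · by_cases hvC : v ∈ C b
      · obtain ⟨q, hq⟩ := hcovC b v hvC
        rcases q with ⟨b', w⟩ | w
        · have := (hrel _ _ _ _ hq).1
          subst this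
          exact ⟨w, fun hc => absurd hc hv, fun _ => Or.inl hq⟩
        · obtain ⟨rfl, _⟩ := hstar' _ _ _ hq
          exact ⟨v, fun hc => absurd hc hv, fun _ => Or.inr ⟨rfl, hq⟩⟩
      · exact ⟨v, fun hc => absurd hc hv, fun hc => absurd hc hvC⟩
  choose F hFA hFC using hF
  -- two edges of `M` at the same place
  have hux : ∀ {p q q'}, (p, q) ∈ M → (p, q') ∈ M → q = q' := fun h1 h2 =>
    congrArg Prod.snd (hMm.1 _ h1 _ h2 rfl)
  have huy : ∀ {p p' q}, (p, q) ∈ M → (p', q) ∈ M → p = p' := fun h1 h2 =>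
    congrArg Prod.fst (hMm.2 _ h1 _ h2 rfl)
  have hmA : ∀ b, ∀ v ∈ A b, F b v = v → (Sum.inl (b, v), Sum.inr v) ∈ M := by
    intro b v hv hF
    rcases hFA b v hv with h1 | ⟨_, h1⟩
    · rw [hF] at h1
      have := (hrel _ _ _ _ h1).2.2.1
      exact absurd this (Finset.disjoint_left.1 (hAC b) hv)
    · exact h1
  have hmC : ∀ b, ∀ v ∈ C b, F b v = v → (Sum.inr v, Sum.inl (b, v)) ∈ M := by
    intro b v hv hF
    rcases hFC b v hv with h1 | ⟨_, h1⟩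
    · rw [hF] at h1
      have := (hrel _ _ _ _ h1).2.1
      exact absurd hv (Finset.disjoint_left.1 (hAC b) this)
    · exact h1
  refine ⟨F, ?_, ?_, ?_⟩
  · intro b v hv
    rcases hFA b v hv with h1 | ⟨h1, h2⟩
    · right
      obtain ⟨_, _, h3, h4⟩ := hrel _ _ _ _ h1
      refine ⟨h3, ?_, h4⟩
      rcases hFC b _ h3 with h5 | ⟨_, h5⟩
      · have := huy h5 h1
        simpa using this
      · exact absurd (huy h5 h1) (by simp)
    · exact Or.inl ⟨h1, (hstar _ _ _ h2).2⟩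
  · intro b v hv
    rcases hFC b v hv with h1 | ⟨h1, h2⟩
    · right
      obtain ⟨_, h3, _, h4⟩ := hrel _ _ _ _ h1
      refine ⟨h3, ?_, ?_⟩
      · rcases hFA b _ h3 with h5 | ⟨_, h5⟩
        · have := hux h5 h1
          simpa using this
        · exact absurd (hux h5 h1) (by simp)
      · rcases h4 with ⟨h4, h5⟩ | h4
        · left
          obtain ⟨k1, k2, k3⟩ := hN b _ h3 h4
          rw [h5] at k1 k2 k3
          exact ⟨k2, k3⟩
        · exact Or.inr h4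
    · exact Or.inl ⟨h1, (hstar' _ _ _ h2).2⟩
  · intro v
    rw [card_le_one]
    intro b hb b' hb'
    simp only [mem_filter, mem_univ, true_and] at hb hb'
    rcases hb with ⟨hb | hb, hbF⟩ <;> rcases hb' with ⟨hb' | hb', hbF'⟩
    · have := huy (hmA b v hb hbF) (hmA b' v hb' hbF')
      simpa using this
    · exact absurd (hstar' _ _ _ (hmC b' v hb' hbF')).2
        (Finset.disjoint_left.1 hMM (hstar _ _ _ (hmA b v hb hbF)).2)
    · exact absurd (hstar' _ _ _ (hmC b v hb hbF)).2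
        (Finset.disjoint_left.1 hMM (hstar _ _ _ (hmA b' v hb' hbF')).2)
    · have := hux (hmC b v hb hbF) (hmC b' v hb' hbF')
      simpa using this

end Global

end Pool.Agent.Work.MP_db9399_as.helper89
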