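import Pool.Agent.Work.MP_db9399_as_helper89.SERIES
import Pool.Agent.Work.MP_db9399_bp_helper22.Fournier
import Pool.Agent.Work.MP_db9399_co.Defs

/-!
# MP_db9399, ALL SCALES: assembly (helper89)

`assemble`: matchings `T b` of all colours from the matchings `N b` and the output `F b` of
`all_colours`.

`finish`: total colouring with `D + 2` colours from `T b` and Fournier's theorem.
-/

set_option autoImplicit false

namespace Pool.Agent.Work.MP_db9399_as.helper89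

open Finset Classical
open _root_.MP_db9399_co (IsTotalColoring)
open Pool.Agent.Work.MP_db9399_all (nb)
open Pool.Agent.Work.MP_db9399_all.VIZ (mem_nb)

universe u v

section Assemble

variable {V : Type u} {B : Type v} [Fintype B]

theorem assemble (G S : SimpleGraph V) (hSG : S ≤ G) (O A C W : B → Finset V)
    (N : B → V → V) (MA MC : Finset V) (Sb : B → V → V → Prop) (F : B → V → V)
    (hNN : ∀ b v, N b (N b v) = v)
    (hNG : ∀ b v, N b v ≠ v → G.Adj v (N b v) ∧ ¬ S.Adj v (N b v))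
    (hNd : ∀ b b' v, N b v ≠ v → N b v = N b' v → b = b')
    (hSb : ∀ b, ∀ u ∈ A b, ∀ y ∈ C b, Sb b u y → S.Adj u y)
    (hSd : ∀ b b' u y, u ∈ A b → y ∈ C b → Sb b u y →
      ((u ∈ A b' ∧ y ∈ C b' ∧ Sb b' u y) ∨ (y ∈ A b' ∧ u ∈ C b' ∧ Sb b' y u)) → b = b')
    (hAC : ∀ b, Disjoint (A b) (C b)) (hO : ∀ b, ∀ v ∈ O b, v ∉ A b ∧ v ∉ C b)
    (hout : ∀ b v, v ∉ O b → v ∉ A b → v ∉ C b →
      N b v ≠ v ∧ N b v ∉ O b ∧ N b v ∉ A b ∧ N b v ∉ C b)
    (hFA : ∀ b, ∀ v ∈ A b, (F b v = v ∧ v ∈ MA) ∨ (F b v ∈ C b ∧ F b (F b v) = v ∧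
        ((v ∉ W b ∧ N b v = F b v) ∨ Sb b v (F b v))))
    (hFC : ∀ b, ∀ v ∈ C b, (F b v = v ∧ v ∈ MC) ∨ (F b v ∈ A b ∧ F b (F b v) = v ∧
        ((v ∉ W b ∧ N b v = F b v) ∨ Sb b (F b v) v)))
    (hF1 : ∀ v, #{b | (v ∈ A b ∨ v ∈ C b) ∧ F b v = v} ≤ 1) :
    ∃ T : B → V → V, (∀ b v, T b (T b v) = v) ∧ (∀ b v, T b v ≠ v → G.Adj v (T b v)) ∧
      (∀ b b' v, T b v ≠ v → T b v = T b' v → b = b') ∧ (∀ b, ∀ v ∈ O b, T b v = v) ∧
      (∀ v, #{b | v ∉ O b ∧ T b v = v} ≤ if v ∈ MA ∪ MC then 1 else 0) ∧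
      (∀ b v, v ∉ O b → v ∉ A b → v ∉ C b → T b v = N b v) := by
  set T : B → V → V := fun b v => if v ∈ A b ∨ v ∈ C b then F b v else if v ∈ O b then v else N b v
    with hT
  have hT1 : ∀ b v, (v ∈ A b ∨ v ∈ C b) → T b v = F b v := fun b v h => by simp only [hT, if_pos h]
  have hT2 : ∀ b v, v ∈ O b → T b v = v := fun b v h => by
    have := hO b v h
    simp only [hT, if_neg (not_or.2 this), if_pos h]
  have hT3 : ∀ b v, v ∉ O b → v ∉ A b → v ∉ C b → T b v = N b v := fun b v h h1 h2 => by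
    simp only [hT, if_neg (not_or.2 ⟨h1, h2⟩), if_neg h]
  -- the kind of an edge of `T b`
  have hkind : ∀ b v, T b v ≠ v → (N b v = T b v) ∨
      (v ∈ A b ∧ T b v ∈ C b ∧ Sb b v (T b v)) ∨ (T b v ∈ A b ∧ v ∈ C b ∧ Sb b (T b v) v) := by
    intro b v hv
    by_cases h1 : v ∈ A b
    · rw [hT1 b v (Or.inl h1)] at hv ⊢
      rcases hFA b v h1 with h2 | ⟨h2, _, h3⟩
      · exact absurd h2.1 hv
      · rcases h3 with h3 | h3
        · exact Or.inl h3.2
        · exact Or.inr (Or.inl ⟨h1, h2, h3⟩)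
    · by_cases h2 : v ∈ C b
      · rw [hT1 b v (Or.inr h2)] at hv ⊢
        rcases hFC b v h2 with h3 | ⟨h3, _, h4⟩
        · exact absurd h3.1 hv
        · rcases h4 with h4 | h4
          · exact Or.inl h4.2
          · exact Or.inr (Or.inr ⟨h3, h2, h4⟩)
      · by_cases h3 : v ∈ O b
        · exact absurd (hT2 b v h3) hv
        · exact Or.inl (hT3 b v h3 h1 h2).symm
  refine ⟨T, ?_, ?_, ?_, hT2, ?_, hT3⟩
  · intro b v
    by_cases h1 : v ∈ A b
    · rcases hFA b v h1 with h2 | ⟨h2, h3, _⟩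
      · rw [hT1 b v (Or.inl h1), h2.1, hT1 b v (Or.inl h1), h2.1]
      · rw [hT1 b v (Or.inl h1), hT1 b _ (Or.inr h2), h3]
    · by_cases h2 : v ∈ C b
      · rcases hFC b v h2 with h3 | ⟨h3, h4, _⟩
        · rw [hT1 b v (Or.inr h2), h3.1, hT1 b v (Or.inr h2), h3.1]
        · rw [hT1 b v (Or.inr h2), hT1 b _ (Or.inl h3), h4]
      · by_cases h3 : v ∈ O b
        · rw [hT2 b v h3, hT2 b v h3]
        · obtain ⟨h4, h5, h6, h7⟩ := hout b v h3 h1 h2
          rw [hT3 b v h3 h1 h2, hT3 b _ h5 h6 h7, hNN]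
  · intro b v hv
    rcases hkind b v hv with h1 | ⟨h1, h2, h3⟩ | ⟨h1, h2, h3⟩
    · rw [← h1] at hv ⊢
      exact (hNG b v hv).1
    · exact hSG (hSb b _ h1 _ h2 h3)
    · exact (hSG (hSb b _ h1 _ h2 h3)).symm
  · intro b b' v hv hbb
    have hv' : T b' v ≠ v := hbb ▸ hv
    rcases hkind b v hv with h1 | h1
    · rcases hkind b' v hv' with h2 | h2
      · exact hNd b b' v (h1 ▸ hv) (h1.trans (hbb.trans h2.symm))
      · exfalso
        have h3 := (hNG b v (h1 ▸ hv)).2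
        rw [h1, hbb] at h3
        rcases h2 with ⟨h2, h4, h5⟩ | ⟨h2, h4, h5⟩
        · exact h3 (hSb b' _ h2 _ h4 h5)
        · exact h3 (hSb b' _ h2 _ h4 h5).symm
    · rcases hkind b' v hv' with h2 | h2
      · exfalso
        have h3 := (hNG b' v (h2 ▸ hv')).2
        rw [h2, ← hbb] at h3
        rcases h1 with ⟨h1, h4, h5⟩ | ⟨h1, h4, h5⟩
        · exact h3 (hSb b _ h1 _ h4 h5)
        · exact h3 (hSb b _ h1 _ h4 h5).symm
      · rw [← hbb] at h2
        rcases h1 with ⟨h1, h4, h5⟩ | ⟨h1, h4, h5⟩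
        · exact hSd b b' _ _ h1 h4 h5 h2
        · exact hSd b b' _ _ h1 h4 h5 h2.symm
  · intro v
    split_ifs with hM
    · refine le_trans (card_le_card ?_) (hF1 v)
      intro b hb
      simp only [mem_filter, mem_univ, true_and] at hb ⊢
      by_cases h1 : v ∈ A b ∨ v ∈ C b
      · exact ⟨h1, by rw [← hT1 b v h1]; exact hb.2⟩
      · obtain ⟨h2, h3⟩ := not_or.1 h1
        have h4 := (hout b v hb.1 h2 h3).1
        rw [← hT3 b v hb.1 h2 h3] at h4
        exact absurd hb.2 h4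
    · rw [Nat.le_zero, card_eq_zero, filter_eq_empty_iff]
      intro b _ hb
      rw [mem_union, not_or] at hM
      by_cases h1 : v ∈ A b
      · rw [hT1 b v (Or.inl h1)] at hb
        rcases hFA b v h1 with h2 | ⟨h2, _⟩
        · exact hM.1 h2.2
        · rw [hb.2] at h2
          exact (Finset.disjoint_left.1 (hAC b) h1) h2
      · by_cases h2 : v ∈ C b
        · rw [hT1 b v (Or.inr h2)] at hb
          rcases hFC b v h2 with h3 | ⟨h3, _⟩
          · exact hM.2 h3.2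
          · rw [hb.2] at h3
            exact h1 h3
        · have h4 := (hout b v hb.1 h1 h2).1
          rw [← hT3 b v hb.1 h1 h2] at h4
          exact h4 hb.2

end Assemble

section Finish

variable {V : Type u} [Fintype V]

omit [Fintype V] in
/-- a total colouring from symmetric number valued colourings -/
theorem total_of_nat (G : SimpleGraph V) (k : ℕ) (c : V → ℕ) (t : V → V → ℕ)
    (hc : ∀ v, c v < k) (hcp : ∀ v w, G.Adj v w → c v ≠ c w)
    (ht : ∀ v w, t v w = t w v) (htk : ∀ v w, G.Adj v w → t v w < k)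
    (htp : ∀ v w w', G.Adj v w → G.Adj v w' → t v w = t v w' → w = w')
    (hct : ∀ v w, G.Adj v w → t v w ≠ c v) :
    ∃ (c : V → Fin k) (t : Sym2 V → Fin k), IsTotalColoring G c t := by
  by_cases hV : IsEmpty V
  · refine ⟨fun v => (hV.false v).elim, fun e => ?_, ?_, ?_, ?_⟩
    · exact (Sym2.ind (fun v _ => (hV.false v).elim) e : False).elim
    · exact fun v => (hV.false v).elim
    · exact fun v => (hV.false v).elim
    · exact fun v => (hV.false v).elim
  · rw [not_isEmpty_iff] at hV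
    obtain ⟨v0⟩ := hV
    have hk : 0 < k := Nat.lt_of_le_of_lt (Nat.zero_le _) (hc v0)
    have hl : ∀ v w : V, (⟨t v w % k, Nat.mod_lt _ hk⟩ : Fin k) = ⟨t w v % k, Nat.mod_lt _ hk⟩ := by
      intro v w
      rw [Fin.mk.injEq, ht v w]
    refine ⟨fun v => ⟨c v, hc v⟩, Sym2.lift ⟨fun v w => ⟨t v w % k, Nat.mod_lt _ hk⟩, hl⟩, ?_, ?_, ?_⟩
    · intro v w h he
      rw [Fin.mk.injEq] at he
      exact hcp v w h he
    · intro u v w h1 h2 hne he
      rw [Sym2.lift_mk, Sym2.lift_mk, Fin.mk.injEq, Nat.mod_eq_of_lt (htk _ _ h1),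
        Nat.mod_eq_of_lt (htk _ _ h2)] at he
      exact hne (htp u v w h1 h2 he)
    · intro u v h he
      rw [Sym2.lift_mk, Fin.mk.injEq, Nat.mod_eq_of_lt (htk _ _ h)] at he
      exact hct u v h he

/-- total colouring with `D + 2` colours -/
theorem finish (G : SimpleGraph V) (D P r : ℕ) (hP : P + r = D + 1)
    (hD : ∀ v, (nb G v).card ≤ D) (c : V → Fin P) (hc : ∀ v w, G.Adj v w → c v ≠ c w)
    (M : Finset V) (T : Fin P → V → V) (hTT : ∀ b v, T b (T b v) = v)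
    (hTG : ∀ b v, T b v ≠ v → G.Adj v (T b v))
    (hTd : ∀ b b' v, T b v ≠ v → T b v = T b' v → b = b')
    (hTc : ∀ v, T (c v) v = v)
    (hTm : ∀ v, #{b | c v ≠ b ∧ T b v = v} ≤ if v ∈ M then 1 else 0)
    (hM : ∀ v ∈ M, ∀ w ∈ M, G.Adj v w → ∃ b, T b v = w) :
    ∃ (c : V → Fin (D + 2)) (t : Sym2 V → Fin (D + 2)), IsTotalColoring G c t := by
  -- the uncoloured edges
  let U : SimpleGraph V :=
    { Adj := fun v w => G.Adj v w ∧ ∀ b, T b v ≠ w
      symm := ⟨fun v w h => ⟨h.1.symm, fun b hb => h.2 b (by rw [← hb, hTT])⟩⟩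
      loopless := ⟨fun v h => G.loopless.irrefl v h.1⟩ }
  have hdeg : ∀ v, (nb U v).card ≤ r + if v ∈ M then 1 else 0 := by
    intro v
    have h1 : (univ.filter fun b => T b v ≠ v).card + (nb U v).card ≤ (nb G v).card := by
      have h2 : (univ.filter fun b => T b v ≠ v).card =
          ((univ.filter fun b => T b v ≠ v).image fun b => T b v).card := by
        rw [card_image_of_injOn]
        intro b hb b' _ hbb
        rw [mem_coe, mem_filter] at hb
        exact hTd b b' v hb.2 hbb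
      rw [h2, ← card_union_of_disjoint]
      · apply card_le_card
        intro w hw
        rcases mem_union.1 hw with hw | hw
        · obtain ⟨b, hb, rfl⟩ := mem_image.1 hw
          exact mem_nb.2 (hTG b v (mem_filter.1 hb).2)
        · exact mem_nb.2 (mem_nb.1 hw).1
      · rw [Finset.disjoint_left]
        intro w hw hw'
        obtain ⟨b, hb, rfl⟩ := mem_image.1 hw
        exact (mem_nb.1 hw').2 b rfl
    have h3 : (univ.filter fun b => T b v ≠ v).card + (univ.filter fun b => T b v = v).card = P := by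
      have := card_filter_add_card_filter_not (s := (univ : Finset (Fin P))) (fun b => T b v = v)
      rw [card_univ, Fintype.card_fin] at this
      have h4 : (univ.filter fun b => T b v ≠ v) = univ.filter fun b => ¬ T b v = v := rfl
      rw [h4]
      omega
    have h5 : (univ.filter fun b => T b v = v).card ≤ 1 + if v ∈ M then 1 else 0 := by
      have h6 : (univ.filter fun b => T b v = v) ⊆
          insert (c v) (univ.filter fun b => c v ≠ b ∧ T b v = v) := by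
        intro b hb
        rw [mem_filter] at hb
        rw [mem_insert, mem_filter]
        by_cases h7 : b = c v
        · exact Or.inl h7
        · exact Or.inr ⟨mem_univ _, fun h => h7 h.symm, hb.2⟩
      have h8 := (card_le_card h6).trans (card_insert_le _ _)
      have h9 := hTm v
      omega
    have h10 := hD v
    omega
  obtain ⟨s, hs1, hs2, hs3⟩ := Pool.Agent.Work.MP_db9399_bp_helper22.fournier U r M
    (fun v hv w hw h => by
      obtain ⟨b, hb⟩ := hM v hv w hw h.1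
      exact h.2 b hb) hdeg
  -- colour of an edge
  set t : V → V → ℕ := fun v w => if h : ∃ b, T b v = w then ((Classical.choose h : Fin P) : ℕ)
    else P + s v w with ht
  have hex : ∀ v w, (∃ b, T b v = w) ↔ ∃ b, T b w = v := fun v w =>
    ⟨fun ⟨b, hb⟩ => ⟨b, by rw [← hb, hTT]⟩, fun ⟨b, hb⟩ => ⟨b, by rw [← hb, hTT]⟩⟩
  have ht1 : ∀ v w b, v ≠ w → T b v = w → t v w = (b : ℕ) := by
    intro v w b hvw hb
    have h : ∃ b, T b v = w := ⟨b, hb⟩
    simp only [ht, dif_pos h]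
    have h1 := Classical.choose_spec h
    have h2 : Classical.choose h = b :=
      hTd _ _ v (by rw [h1]; exact hvw.symm) (by rw [h1, hb])
    rw [h2]
  have ht2 : ∀ v w, ¬ (∃ b, T b v = w) → t v w = P + s v w := by
    intro v w h
    simp only [ht, dif_neg h]
  refine total_of_nat G (D + 2) (fun v => (c v : ℕ)) t ?_ ?_ ?_ ?_ ?_ ?_
  · intro v
    have := (c v).2
    omega
  · intro v w h he
    exact hc v w h (Fin.ext he)
  · intro v w
    by_cases hvw : v = w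
    · rw [hvw]
    by_cases h : ∃ b, T b v = w
    · obtain ⟨b, hb⟩ := h
      rw [ht1 v w b hvw hb, ht1 w v b (Ne.symm hvw) (by rw [← hb, hTT])]
    · rw [ht2 v w h, ht2 w v (fun h' => h ((hex v w).2 h')), hs1]
  · intro v w hvw
    by_cases h : ∃ b, T b v = w
    · obtain ⟨b, hb⟩ := h
      rw [ht1 v w b hvw.ne hb]
      have := b.2
      omega
    · rw [ht2 v w h]
      have := hs2 v w ⟨hvw, fun b hb => h ⟨b, hb⟩⟩
      omega
  · intro v w w' h1 h2 he
    by_cases h : ∃ b, T b v = w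
    · obtain ⟨b, hb⟩ := h
      by_cases h' : ∃ b, T b v = w'
      · obtain ⟨b', hb'⟩ := h'
        rw [ht1 v w b h1.ne hb, ht1 v w' b' h2.ne hb'] at he
        rw [← hb, ← hb', Fin.ext he]
      · rw [ht1 v w b h1.ne hb, ht2 v w' h'] at he
        have := b.2
        omega
    · by_cases h' : ∃ b, T b v = w'
      · obtain ⟨b', hb'⟩ := h'
        rw [ht2 v w h, ht1 v w' b' h2.ne hb'] at he
        have := b'.2
        omega
      · rw [ht2 v w h, ht2 v w' h'] at he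
        exact hs3 v w w' ⟨h1, fun b hb => h ⟨b, hb⟩⟩ ⟨h2, fun b hb => h' ⟨b, hb⟩⟩ (by omega)
  · intro v w hvw
    by_cases h : ∃ b, T b v = w
    · obtain ⟨b, hb⟩ := h
      rw [ht1 v w b hvw.ne hb]
      intro he
      have h1 : b = c v := Fin.ext he
      rw [h1, hTc v] at hb
      exact hvw.ne hb
    · rw [ht2 v w h]
      have := (c v).2
      omega

/-- **One shot.**  `S` the reserve, `N b` the matchings of `G - S`, `c` the own colours, `A b`, `C b`
the two sides of the active vertices of colour `b`, `W b` the tokens, `Sb b` the reserve edges of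
colour `b`, certificates for both sides. -/
theorem oneshot (G S : SimpleGraph V) (hSG : S ≤ G) (D P r : ℕ) (hP : P + r = D + 1)
    (hD : ∀ v, (nb G v).card ≤ D)
    -- own colours and classes
    (c : V → Fin P) (hc : ∀ v w, G.Adj v w → c v ≠ c w) (N : Fin P → V → V)
    (hNN : ∀ b v, N b (N b v) = v)
    (hNG : ∀ b v, N b v ≠ v → G.Adj v (N b v) ∧ ¬ S.Adj v (N b v))
    (hNd : ∀ b b' v, N b v ≠ v → N b v = N b' v → b = b')
    -- active vertices, tokens, reserve edges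
    (A C W : Fin P → Finset V) (Sb : Fin P → V → V → Prop)
    (hAC : ∀ b, Disjoint (A b) (C b)) (hcA : ∀ v, v ∉ A (c v) ∧ v ∉ C (c v))
    (hN : ∀ b, ∀ u ∈ A b, u ∉ W b → N b u ∈ C b ∧ N b u ∉ W b)
    (hN' : ∀ b, ∀ u ∈ C b, u ∉ W b → N b u ∈ A b ∧ N b u ∉ W b)
    (hout : ∀ b v, c v ≠ b → v ∉ A b → v ∉ C b →
      N b v ≠ v ∧ c (N b v) ≠ b ∧ N b v ∉ A b ∧ N b v ∉ C b)
    (hSb : ∀ b, ∀ u ∈ A b, ∀ y ∈ C b, Sb b u y → S.Adj u y)
    (hSd : ∀ b b' u y, u ∈ A b → y ∈ C b → Sb b u y →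
      ((u ∈ A b' ∧ y ∈ C b' ∧ Sb b' u y) ∨ (y ∈ A b' ∧ u ∈ C b' ∧ Sb b' y u)) → b = b')
    -- stars
    (MA MC K K' : Finset V) (hMM : Disjoint MA MC)
    (hM : ∀ v ∈ MA ∪ MC, ∀ w ∈ MA ∪ MC, G.Adj v w →
      ∃ b, N b v = w ∧ c v ≠ b ∧ v ∉ A b ∧ v ∉ C b)
    -- certificates
    (x x' : Fin P → V → V → ℝ) (e e' : Fin P → V → ℝ) (Dm Dt Dp T0 m m' τ Ex σ z : ℝ)
    (h : ∀ b, Cert (A b) (C b) (W b) MA K (Sb b) (x b) (e b) Dm Dt Dp T0 m m' τ)
    (h' : ∀ b, Cert (C b) (A b) (W b) MC K' (fun u v => Sb b v u) (x' b) (e' b)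
      Dm Dt Dp T0 m m' τ)
    (hτ : 0 ≤ τ) (hm : 0 ≤ m) (hDp : 0 < Dp) (hDm : 0 ≤ Dm) (hDt : 0 < Dt) (hT0 : 0 ≤ T0)
    (hEx0 : 0 ≤ Ex) (hEx : Dp - Dm + Dm * (T0 / Dt) ≤ Ex) (hσ0 : 0 < σ)
    (hσ : σ * Dp ≤ m * (m' / Dp) - Ex)
    (he0 : ∀ b, ∀ u ∈ A b, u ∈ MA → 0 ≤ e b u) (he0' : ∀ b, ∀ u ∈ C b, u ∈ MC → 0 ≤ e' b u)
    (he : ∀ u ∈ MA, ∑ b with u ∈ A b, e b u ≤ 1 / 2)
    (he' : ∀ u ∈ MC, ∑ b with u ∈ C b, e' b u ≤ 1 / 2)
    (hz : ∀ u ∈ MA, (#{b | u ∈ A b} : ℝ) ≤ z) (hz' : ∀ u ∈ MC, (#{b | u ∈ C b} : ℝ) ≤ z)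
    (hzz : z * (τ * Ex) ≤ σ / 2) :
    ∃ (c : V → Fin (D + 2)) (t : Sym2 V → Fin (D + 2)), IsTotalColoring G c t := by
  obtain ⟨F, hFA, hFC, hF1⟩ := all_colours A C N W MA MC K K' Sb x x' e e' Dm Dt Dp T0 m m'
    τ Ex σ z hAC hMM h h'
    (fun b u hu hW => ⟨(hN b u hu hW).1, (hN b u hu hW).2, hNN b u⟩)
    (fun b u hu hW => ⟨(hN' b u hu hW).1, (hN' b u hu hW).2, hNN b u⟩)
    hτ hm hDp hDm hDt hT0 hEx0 hEx hσ0 hσ he0 he0' he he' hz hz' hzz
  obtain ⟨T, h1, h2, h3, h4, h5, h6⟩ := assemble G S hSG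
    (fun b => univ.filter fun v => c v = b) A C W N MA MC Sb F hNN hNG hNd hSb hSd hAC
    (by
      intro b v hv
      rw [mem_filter] at hv
      rw [← hv.2]
      exact hcA v)
    (by
      intro b v hv hA hC
      rw [mem_filter, not_and] at hv
      obtain ⟨g1, g2, g3, g4⟩ := hout b v (hv (mem_univ _)) hA hC
      exact ⟨g1, by rw [mem_filter]; exact fun h => g2 h.2, g3, g4⟩) hFA hFC hF1
  refine finish G D P r hP hD c hc (MA ∪ MC) T h1 h2 h3 (fun v => h4 _ v (by simp)) ?_ ?_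
  · intro v
    refine le_trans (le_of_eq ?_) (h5 v)
    congr 1
    ext b
    simp
  · intro v hv w hw hvw
    obtain ⟨b, g1, g2, g3, g4⟩ := hM v hv w hw hvw
    refine ⟨b, ?_⟩
    rw [h6 b v (by rw [mem_filter]; exact fun h => g2 h.2) g3 g4, g1]

end Finish

end Pool.Agent.Work.MP_db9399_as.helper89
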