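import Pool.Agent.Work.MP_db9399_as_helper89.HALL

/-!
# MP_db9399, ALL SCALES: the certificate from a truncated walk series (helper89)

`push`: an edge function whose sums are right up to residuals `pA`, `pC` is turned into a
certificate by moving the residuals to the vertices of `MA`.

`walk_A`, `walk_C`: the sums of the walk series.

`series`: both together.
-/

set_option autoImplicit false

namespace Pool.Agent.Work.MP_db9399_as.helper89

open Finset Classical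

universe u v

section Push

variable {V : Type u} (A C : Finset V) (W MA K : Finset V) (S : V → V → Prop)

/-- degree of `u` on the side `A` -/
noncomputable def dA (u : V) : ℝ := #{y ∈ C | S u y}

/-- degree of `y` on the side `C` -/
noncomputable def dC (y : V) : ℝ := #{u ∈ A | S u y}

/-- degree of `u` into `C` outside `K` -/
noncomputable def dO (u : V) : ℝ := #{y ∈ C | y ∉ K ∧ S u y}

/-- degree of `y` into `MA` -/
noncomputable def dM (y : V) : ℝ := #{u ∈ A | u ∈ MA ∧ S u y}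

/-- what a vertex of `A` has to send : its own residual and what it gets from `K` -/
noncomputable def sa (pA pC : V → ℝ) (u : V) : ℝ :=
  pA u + ∑ y ∈ C with y ∈ K ∧ S u y, pC y / dC A S y

/-- what a vertex of `C` outside `K` has to send to `MA` -/
noncomputable def sc (pA pC : V → ℝ) (y : V) : ℝ :=
  pC y + ∑ u ∈ A with u ∉ MA ∧ S u y, sa A C K S pA pC u / dO C K S u

/-- the corrected edge function -/
noncomputable def px (pA pC : V → ℝ) (x0 : V → V → ℝ) (u y : V) : ℝ :=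
  x0 u y + if y ∈ K then -(pC y / dC A S y) else
    if u ∈ MA then -(sc A C MA K S pA pC y / dM A MA S y) else sa A C K S pA pC u / dO C K S u

/-- the load of a vertex of `MA` -/
noncomputable def pe (pA pC : V → ℝ) (u : V) : ℝ :=
  if u ∈ MA then sa A C K S pA pC u +
    ∑ y ∈ C with y ∉ K ∧ S u y, sc A C MA K S pA pC y / dM A MA S y else 0

theorem sum_two (X : Finset V) (P Q : V → Prop) [DecidablePred P] [DecidablePred Q] (f : V → ℝ) :
    ∑ y ∈ X with P y, f y = ∑ y ∈ X with (Q y ∧ P y), f y + ∑ y ∈ X with (¬ Q y ∧ P y), f y := by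
  simp only [sum_filter]
  rw [← sum_add_distrib]
  refine sum_congr rfl fun y _ => ?_
  by_cases h1 : P y <;> by_cases h2 : Q y <;> simp [h1, h2]

variable {A C W MA K S}

theorem push {Dm Dt Dp T0 m m' τ0 φ : ℝ} {x0 : V → V → ℝ} {pA pC : V → ℝ}
    (hDt : 0 < Dt) (hm : 0 < m) (hm' : 0 < m')
    (d1 : ∀ u ∈ A, u ∉ W → Dm ≤ (#{y ∈ C | S u y} : ℝ))
    (d1t : ∀ u ∈ A, Dt ≤ (#{y ∈ C | S u y} : ℝ))
    (d1' : ∀ u ∈ A, (#{y ∈ C | S u y} : ℝ) ≤ Dp)
    (d2 : ∀ y ∈ C, (#{u ∈ A | S u y} : ℝ) ≤ Dp)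
    (d2' : ∀ y ∈ C, Dt ≤ (#{u ∈ A | S u y} : ℝ))
    (d3 : ∀ y ∈ C, (#{u ∈ A | u ∈ W ∧ S u y} : ℝ) ≤ T0)
    (c4 : ∀ y ∈ C, y ∉ K → m ≤ (#{u ∈ A | u ∈ MA ∧ S u y} : ℝ))
    (c5 : ∀ u ∈ A, m' ≤ (#{y ∈ C | y ∉ K ∧ S u y} : ℝ))
    (hpA : ∀ u ∈ A, 0 ≤ pA u) (hpC : ∀ y ∈ C, 0 ≤ pC y)
    (hpA' : ∀ u ∈ A, pA u ≤ φ) (hpC' : ∀ y ∈ C, pC y ≤ φ)
    (h1 : ∀ u ∈ A, (if u ∈ W then (1 : ℝ) else 0) - pA u ≤ ∑ y ∈ C with S u y, x0 u y)
    (h2 : ∀ y ∈ C, ∑ u ∈ A with S u y, x0 u y ≤ (if y ∈ W then (1 : ℝ) else 0) + pC y)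
    (hx0 : ∀ u ∈ A, ∀ y ∈ C, S u y → -τ0 ≤ x0 u y) :
    Cert A C W MA K S (px A C MA K S pA pC x0) (pe A C MA K S pA pC) Dm Dt Dp T0 m m'
      (τ0 + φ / Dt + (φ + Dp * ((φ + Dp * (φ / Dt)) / m')) / m) := by
  have hdC : ∀ y ∈ C, Dt ≤ dC A S y := d2'
  have hq : ∀ y ∈ C, 0 ≤ pC y / dC A S y ∧ pC y / dC A S y ≤ φ / Dt := by
    intro y hy
    have h3 := hdC y hy
    exact ⟨div_nonneg (hpC y hy) (hDt.le.trans h3),
      div_le_div₀ ((hpC y hy).trans (hpC' y hy)) (hpC' y hy) hDt h3⟩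
  have hsa : ∀ u ∈ A, 0 ≤ sa A C K S pA pC u ∧ sa A C K S pA pC u ≤ φ + Dp * (φ / Dt) := by
    intro u hu
    refine ⟨add_nonneg (hpA u hu) (sum_nonneg fun y hy => (hq y (mem_filter.1 hy).1).1),
      add_le_add (hpA' u hu) ?_⟩
    have g1 : ∑ y ∈ C with y ∈ K ∧ S u y, pC y / dC A S y ≤
        #{y ∈ C | y ∈ K ∧ S u y} • (φ / Dt) :=
      sum_le_card_nsmul _ _ _ fun y hy => (hq y (mem_filter.1 hy).1).2
    refine g1.trans ?_
    rw [nsmul_eq_mul]
    have g2 : (0 : ℝ) ≤ φ / Dt := div_nonneg ((hpA u hu).trans (hpA' u hu)) hDt.le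
    refine mul_le_mul_of_nonneg_right (le_trans ?_ (d1' u hu)) g2
    norm_cast
    exact card_le_card fun y hy => by
      rw [mem_filter] at hy ⊢
      exact ⟨hy.1, hy.2.2⟩
  have hsad : ∀ u ∈ A, 0 ≤ sa A C K S pA pC u / dO C K S u ∧
      sa A C K S pA pC u / dO C K S u ≤ (φ + Dp * (φ / Dt)) / m' := by
    intro u hu
    have h3 : m' ≤ dO C K S u := c5 u hu
    exact ⟨div_nonneg (hsa u hu).1 (hm'.le.trans h3),
      div_le_div₀ ((hsa u hu).1.trans (hsa u hu).2) (hsa u hu).2 hm' h3⟩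
  have hsc : ∀ y ∈ C, 0 ≤ sc A C MA K S pA pC y ∧
      sc A C MA K S pA pC y ≤ φ + Dp * ((φ + Dp * (φ / Dt)) / m') := by
    intro y hy
    refine ⟨add_nonneg (hpC y hy) (sum_nonneg fun u hu => (hsad u (mem_filter.1 hu).1).1),
      add_le_add (hpC' y hy) ?_⟩
    have g1 : ∑ u ∈ A with u ∉ MA ∧ S u y, sa A C K S pA pC u / dO C K S u ≤
        #{u ∈ A | u ∉ MA ∧ S u y} • ((φ + Dp * (φ / Dt)) / m') :=
      sum_le_card_nsmul _ _ _ fun u hu => (hsad u (mem_filter.1 hu).1).2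
    refine g1.trans ?_
    rw [nsmul_eq_mul]
    have g3 : (0 : ℝ) ≤ φ := (hpC y hy).trans (hpC' y hy)
    have g4 : 0 ≤ Dp := (Nat.cast_nonneg _).trans (d2 y hy)
    have g2 : (0 : ℝ) ≤ (φ + Dp * (φ / Dt)) / m' := by positivity
    refine mul_le_mul_of_nonneg_right (le_trans ?_ (d2 y hy)) g2
    norm_cast
    exact card_le_card fun u hu => by
      rw [mem_filter] at hu ⊢
      exact ⟨hu.1, hu.2.2⟩
  refine
    { hx := ?_
      c1 := ?_
      c2 := ?_
      d1 := d1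
      d1t := fun u hu _ => d1t u hu
      d3 := d3
      d1' := d1'
      d2 := d2
      c4 := c4
      c5 := c5
      e0 := ?_ }
  · intro u hu y hy hS
    have g0 := hx0 u hu y hy hS
    have g3 : (0 : ℝ) ≤ φ := (hpC y hy).trans (hpC' y hy)
    have g4 : 0 ≤ Dp := (Nat.cast_nonneg _).trans (d2 y hy)
    have g5 : 0 ≤ (φ + Dp * ((φ + Dp * (φ / Dt)) / m')) / m := by positivity
    have g6 : 0 ≤ φ / Dt := by positivity
    rw [px]
    by_cases hK : y ∈ K
    · rw [if_pos hK]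
      have := (hq y hy).2
      linarith
    · rw [if_neg hK]
      by_cases hM : u ∈ MA
      · rw [if_pos hM]
        have h3 : m ≤ dM A MA S y := c4 y hy hK
        have h4 : sc A C MA K S pA pC y / dM A MA S y ≤
            (φ + Dp * ((φ + Dp * (φ / Dt)) / m')) / m :=
          div_le_div₀ ((hsc y hy).1.trans (hsc y hy).2) (hsc y hy).2 hm h3
        linarith
      · rw [if_neg hM]
        have := (hsad u hu).1
        linarith
  · intro u hu
    have g0 := h1 u hu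
    simp only [px, sum_add_distrib]
    rw [sum_two C (S u) (fun y => y ∈ K) (fun y => if y ∈ K then -(pC y / dC A S y) else
      if u ∈ MA then -(sc A C MA K S pA pC y / dM A MA S y) else sa A C K S pA pC u / dO C K S u)]
    have g1 : ∑ y ∈ C with y ∈ K ∧ S u y, (if y ∈ K then -(pC y / dC A S y) else
        if u ∈ MA then -(sc A C MA K S pA pC y / dM A MA S y) else
        sa A C K S pA pC u / dO C K S u) = -∑ y ∈ C with y ∈ K ∧ S u y, pC y / dC A S y := by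
      rw [← sum_neg_distrib]
      refine sum_congr rfl fun y hy => ?_
      rw [if_pos (mem_filter.1 hy).2.1]
    rw [g1]
    by_cases hM : u ∈ MA
    · have g2 : ∑ y ∈ C with ¬ y ∈ K ∧ S u y, (if y ∈ K then -(pC y / dC A S y) else
          if u ∈ MA then -(sc A C MA K S pA pC y / dM A MA S y) else
          sa A C K S pA pC u / dO C K S u) =
          -∑ y ∈ C with ¬ y ∈ K ∧ S u y, sc A C MA K S pA pC y / dM A MA S y := by
        rw [← sum_neg_distrib]
        refine sum_congr rfl fun y hy => ?_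
        rw [if_neg (mem_filter.1 hy).2.1, if_pos hM]
      rw [g2, pe, if_pos hM, sa]
      linarith
    · have g2 : ∑ y ∈ C with ¬ y ∈ K ∧ S u y, (if y ∈ K then -(pC y / dC A S y) else
          if u ∈ MA then -(sc A C MA K S pA pC y / dM A MA S y) else
          sa A C K S pA pC u / dO C K S u) = sa A C K S pA pC u := by
        have g3 : ∑ y ∈ C with ¬ y ∈ K ∧ S u y, (if y ∈ K then -(pC y / dC A S y) else
            if u ∈ MA then -(sc A C MA K S pA pC y / dM A MA S y) else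
            sa A C K S pA pC u / dO C K S u) =
            ∑ y ∈ C with ¬ y ∈ K ∧ S u y, sa A C K S pA pC u / dO C K S u := by
          refine sum_congr rfl fun y hy => ?_
          rw [if_neg (mem_filter.1 hy).2.1, if_neg hM]
        rw [g3, sum_const, nsmul_eq_mul]
        have h3 : m' ≤ dO C K S u := c5 u hu
        have h4 : dO C K S u ≠ 0 := (hm'.trans_le h3).ne'
        have h5 : (#{y ∈ C | ¬ y ∈ K ∧ S u y} : ℝ) = dO C K S u := rfl
        rw [h5]
        field_simp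
      rw [g2, pe, if_neg hM, sa]
      linarith
  · intro y hy
    have g0 := h2 y hy
    simp only [px, sum_add_distrib]
    by_cases hK : y ∈ K
    · simp only [if_pos hK]
      rw [sum_const, nsmul_eq_mul]
      have h3 := hdC y hy
      have h4 : dC A S y ≠ 0 := (hDt.trans_le h3).ne'
      have h5 : (#{u ∈ A | S u y} : ℝ) = dC A S y := rfl
      rw [h5]
      have h6 : dC A S y * -(pC y / dC A S y) = -pC y := by field_simp
      rw [h6]
      linarith
    · simp only [if_neg hK]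
      rw [sum_two A (fun u => S u y) (fun u => u ∈ MA) (fun u => if u ∈ MA then
        -(sc A C MA K S pA pC y / dM A MA S y) else sa A C K S pA pC u / dO C K S u)]
      have g1 : ∑ u ∈ A with u ∈ MA ∧ S u y, (if u ∈ MA then
          -(sc A C MA K S pA pC y / dM A MA S y) else sa A C K S pA pC u / dO C K S u) =
          -sc A C MA K S pA pC y := by
        have g2 : ∑ u ∈ A with u ∈ MA ∧ S u y, (if u ∈ MA then
            -(sc A C MA K S pA pC y / dM A MA S y) else sa A C K S pA pC u / dO C K S u) =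
            ∑ u ∈ A with u ∈ MA ∧ S u y, -(sc A C MA K S pA pC y / dM A MA S y) :=
          sum_congr rfl fun u hu => by rw [if_pos (mem_filter.1 hu).2.1]
        rw [g2, sum_const, nsmul_eq_mul]
        have h3 : m ≤ dM A MA S y := c4 y hy hK
        have h4 : dM A MA S y ≠ 0 := (hm.trans_le h3).ne'
        have h5 : (#{u ∈ A | u ∈ MA ∧ S u y} : ℝ) = dM A MA S y := rfl
        rw [h5]
        field_simp
      have g3 : ∑ u ∈ A with ¬ u ∈ MA ∧ S u y, (if u ∈ MA then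
          -(sc A C MA K S pA pC y / dM A MA S y) else sa A C K S pA pC u / dO C K S u) =
          sc A C MA K S pA pC y - pC y := by
        have g4 : ∑ u ∈ A with ¬ u ∈ MA ∧ S u y, (if u ∈ MA then
            -(sc A C MA K S pA pC y / dM A MA S y) else sa A C K S pA pC u / dO C K S u) =
            ∑ u ∈ A with ¬ u ∈ MA ∧ S u y, sa A C K S pA pC u / dO C K S u :=
          sum_congr rfl fun u hu => by rw [if_neg (mem_filter.1 hu).2.1]
        rw [g4, sc]
        ring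
      rw [g1, g3]
      linarith
  · intro u _ hM
    rw [pe, if_neg hM]

end Push

section Walk

variable {V : Type u} {A C : Finset V} {W : Finset V} {S : V → V → Prop}

/-- the edge function of the walk series: `a i`, `c i` the walk from the tokens in `A`,
`c' i`, `a' i` the walk from the tokens in `C` -/
noncomputable def wx (A C : Finset V) (S : V → V → Prop) (L : ℕ) (θ θ' : ℕ → ℝ)
    (a c a' c' : ℕ → V → ℝ) (u y : V) : ℝ :=
  ∑ i ∈ range L, (θ (2 * i) * (a i u / dA C S u) - θ (2 * i + 1) * (c i y / dC A S y)) +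
  ∑ i ∈ range L, (θ' (2 * i) * (c' i y / dC A S y) - θ' (2 * i + 1) * (a' i u / dA C S u))

/-- residual at `u` in `A` -/
noncomputable def resA (L : ℕ) (θ θ' : ℕ → ℝ) (a a' : ℕ → V → ℝ) (u : V) : ℝ :=
  ∑ i ∈ range L, (θ (2 * i + 1) - θ (2 * i + 2)) * a (i + 1) u -
    ∑ i ∈ range L, (θ' (2 * i) - θ' (2 * i + 1)) * a' i u

/-- residual at `y` in `C` -/
noncomputable def resC (L : ℕ) (θ θ' : ℕ → ℝ) (c c' : ℕ → V → ℝ) (y : V) : ℝ :=
  ∑ i ∈ range L, (θ (2 * i) - θ (2 * i + 1)) * c i y -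
    ∑ i ∈ range L, (θ' (2 * i + 1) - θ' (2 * i + 2)) * c' (i + 1) y

theorem tele (L : ℕ) (θ : ℕ → ℝ) (b : ℕ → ℝ) (hθ : θ (2 * L) = 0) :
    ∑ i ∈ range L, (θ (2 * i) * b i - θ (2 * i + 1) * b (i + 1)) =
      θ 0 * b 0 - ∑ i ∈ range L, (θ (2 * i + 1) - θ (2 * i + 2)) * b (i + 1) := by
  have h1 : ∀ n, ∑ i ∈ range n, (θ (2 * i) * b i - θ (2 * i + 1) * b (i + 1)) =
      θ 0 * b 0 - θ (2 * n) * b n -
        ∑ i ∈ range n, (θ (2 * i + 1) - θ (2 * i + 2)) * b (i + 1) := by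
    intro n
    induction n with
    | zero => simp
    | succ n ih =>
      rw [sum_range_succ, sum_range_succ, ih, show 2 * (n + 1) = 2 * n + 2 by ring]
      ring
  rw [h1, hθ]
  ring

theorem wx_A {L : ℕ} {θ θ' : ℕ → ℝ} {a c a' c' : ℕ → V → ℝ} (hθ : θ (2 * L) = 0)
    {u : V} (hd : dA C S u ≠ 0)
    (ha : ∀ i, a (i + 1) u = ∑ y ∈ C with S u y, c i y / dC A S y)
    (ha' : ∀ i, a' i u = ∑ y ∈ C with S u y, c' i y / dC A S y) :
    ∑ y ∈ C with S u y, wx A C S L θ θ' a c a' c' u y = θ 0 * a 0 u - resA L θ θ' a a' u := by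
  have hconst : ∀ t : ℝ, ∑ y ∈ C with S u y, t / dA C S u = t := by
    intro t
    rw [sum_const, nsmul_eq_mul]
    have : (#{y ∈ C | S u y} : ℝ) = dA C S u := rfl
    rw [this]
    field_simp
  simp only [wx, sum_add_distrib]
  have h1 : ∑ y ∈ C with S u y, ∑ i ∈ range L, (θ (2 * i) * (a i u / dA C S u) -
      θ (2 * i + 1) * (c i y / dC A S y)) =
      ∑ i ∈ range L, (θ (2 * i) * a i u - θ (2 * i + 1) * a (i + 1) u) := by
    rw [sum_comm]
    refine sum_congr rfl fun i _ => ?_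
    rw [sum_sub_distrib, ← mul_sum, ← mul_sum, hconst, ha]
  have h2 : ∑ y ∈ C with S u y, ∑ i ∈ range L, (θ' (2 * i) * (c' i y / dC A S y) -
      θ' (2 * i + 1) * (a' i u / dA C S u)) =
      ∑ i ∈ range L, (θ' (2 * i) - θ' (2 * i + 1)) * a' i u := by
    rw [sum_comm]
    refine sum_congr rfl fun i _ => ?_
    rw [sum_sub_distrib, ← mul_sum, ← mul_sum, hconst, ← ha']
    ring
  rw [h1, h2, tele L θ (fun i => a i u) hθ, resA]
  ring

theorem wx_C {L : ℕ} {θ θ' : ℕ → ℝ} {a c a' c' : ℕ → V → ℝ} (hθ' : θ' (2 * L) = 0)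
    {y : V} (hd : dC A S y ≠ 0)
    (hc : ∀ i, c i y = ∑ u ∈ A with S u y, a i u / dA C S u)
    (hc' : ∀ i, c' (i + 1) y = ∑ u ∈ A with S u y, a' i u / dA C S u) :
    ∑ u ∈ A with S u y, wx A C S L θ θ' a c a' c' u y = θ' 0 * c' 0 y + resC L θ θ' c c' y := by
  have hconst : ∀ t : ℝ, ∑ u ∈ A with S u y, t / dC A S y = t := by
    intro t
    rw [sum_const, nsmul_eq_mul]
    have : (#{u ∈ A | S u y} : ℝ) = dC A S y := rfl
    rw [this]
    field_simp
  simp only [wx, sum_add_distrib]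
  have h1 : ∑ u ∈ A with S u y, ∑ i ∈ range L, (θ (2 * i) * (a i u / dA C S u) -
      θ (2 * i + 1) * (c i y / dC A S y)) =
      ∑ i ∈ range L, (θ (2 * i) - θ (2 * i + 1)) * c i y := by
    rw [sum_comm]
    refine sum_congr rfl fun i _ => ?_
    rw [sum_sub_distrib, ← mul_sum, ← mul_sum, hconst, ← hc]
    ring
  have h2 : ∑ u ∈ A with S u y, ∑ i ∈ range L, (θ' (2 * i) * (c' i y / dC A S y) -
      θ' (2 * i + 1) * (a' i u / dA C S u)) =
      ∑ i ∈ range L, (θ' (2 * i) * c' i y - θ' (2 * i + 1) * c' (i + 1) y) := by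
    rw [sum_comm]
    refine sum_congr rfl fun i _ => ?_
    rw [sum_sub_distrib, ← mul_sum, ← mul_sum, hconst, hc']
  rw [h1, h2, tele L θ' (fun i => c' i y) hθ', resC]
  ring

/-- **The certificate.**  `pA`, `pC` : any bounds for the positive parts of the residuals. -/
theorem series {W MA K : Finset V} {L : ℕ} {θ θ' : ℕ → ℝ} {a c a' c' : ℕ → V → ℝ}
    {Dm Dt Dp T0 m m' φ : ℝ} {pA pC : V → ℝ}
    (hDt : 0 < Dt) (hm : 0 < m) (hm' : 0 < m') (hφ : 0 ≤ φ)
    (d1 : ∀ u ∈ A, u ∉ W → Dm ≤ (#{y ∈ C | S u y} : ℝ))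
    (d1t : ∀ u ∈ A, Dt ≤ (#{y ∈ C | S u y} : ℝ))
    (d1' : ∀ u ∈ A, (#{y ∈ C | S u y} : ℝ) ≤ Dp)
    (d2 : ∀ y ∈ C, (#{u ∈ A | S u y} : ℝ) ≤ Dp)
    (d2' : ∀ y ∈ C, Dt ≤ (#{u ∈ A | S u y} : ℝ))
    (d3 : ∀ y ∈ C, (#{u ∈ A | u ∈ W ∧ S u y} : ℝ) ≤ T0)
    (c4 : ∀ y ∈ C, y ∉ K → m ≤ (#{u ∈ A | u ∈ MA ∧ S u y} : ℝ))
    (c5 : ∀ u ∈ A, m' ≤ (#{y ∈ C | y ∉ K ∧ S u y} : ℝ))
    -- weights
    (hθ0 : θ 0 = 1) (hθ0' : θ' 0 = 1) (hθ : θ (2 * L) = 0) (hθ' : θ' (2 * L) = 0)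
    (hθn : ∀ i, 0 ≤ θ i ∧ θ i ≤ 1) (hθn' : ∀ i, 0 ≤ θ' i ∧ θ' i ≤ 1)
    -- walks
    (ha0 : ∀ u ∈ A, a 0 u = if u ∈ W then 1 else 0)
    (hc : ∀ i, ∀ y ∈ C, c i y = ∑ u ∈ A with S u y, a i u / dA C S u)
    (ha : ∀ i, ∀ u ∈ A, a (i + 1) u = ∑ y ∈ C with S u y, c i y / dC A S y)
    (hc0' : ∀ y ∈ C, c' 0 y = if y ∈ W then 1 else 0)
    (ha' : ∀ i, ∀ u ∈ A, a' i u = ∑ y ∈ C with S u y, c' i y / dC A S y)
    (hc' : ∀ i, ∀ y ∈ C, c' (i + 1) y = ∑ u ∈ A with S u y, a' i u / dA C S u)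
    (hcφ : ∀ i < L, ∀ y ∈ C, c i y ≤ φ) (haφ' : ∀ i < L, ∀ u ∈ A, a' i u ≤ φ)
    -- residuals
    (hpA : ∀ u ∈ A, 0 ≤ pA u) (hpC : ∀ y ∈ C, 0 ≤ pC y)
    (hpA' : ∀ u ∈ A, pA u ≤ φ) (hpC' : ∀ y ∈ C, pC y ≤ φ)
    (hrA : ∀ u ∈ A, resA L θ θ' a a' u ≤ pA u) (hrC : ∀ y ∈ C, resC L θ θ' c c' y ≤ pC y) :
    Cert A C W MA K S (px A C MA K S pA pC (wx A C S L θ θ' a c a' c'))
      (pe A C MA K S pA pC) Dm Dt Dp T0 m m'
      (2 * L * (φ / Dt) + φ / Dt + (φ + Dp * ((φ + Dp * (φ / Dt)) / m')) / m) := by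
  have hdA : ∀ u ∈ A, Dt ≤ dA C S u := d1t
  have hdC : ∀ y ∈ C, Dt ≤ dC A S y := d2'
  -- positivity of the walks
  have hpos : ∀ i, (∀ u ∈ A, 0 ≤ a i u) ∧ (∀ y ∈ C, 0 ≤ c i y) := by
    intro i
    induction i with
    | zero =>
      have h1 : ∀ u ∈ A, 0 ≤ a 0 u := by
        intro u hu
        rw [ha0 u hu]
        split_ifs <;> norm_num
      refine ⟨h1, fun y hy => ?_⟩
      rw [hc 0 y hy]
      exact sum_nonneg fun u hu => div_nonneg (h1 u (mem_filter.1 hu).1)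
        (hDt.le.trans (hdA u (mem_filter.1 hu).1))
    | succ i ih =>
      have h1 : ∀ u ∈ A, 0 ≤ a (i + 1) u := by
        intro u hu
        rw [ha i u hu]
        exact sum_nonneg fun y hy => div_nonneg (ih.2 y (mem_filter.1 hy).1)
          (hDt.le.trans (hdC y (mem_filter.1 hy).1))
      refine ⟨h1, fun y hy => ?_⟩
      rw [hc (i + 1) y hy]
      exact sum_nonneg fun u hu => div_nonneg (h1 u (mem_filter.1 hu).1)
        (hDt.le.trans (hdA u (mem_filter.1 hu).1))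
  have hpos' : ∀ i, (∀ y ∈ C, 0 ≤ c' i y) ∧ (∀ u ∈ A, 0 ≤ a' i u) := by
    intro i
    induction i with
    | zero =>
      have h1 : ∀ y ∈ C, 0 ≤ c' 0 y := by
        intro y hy
        rw [hc0' y hy]
        split_ifs <;> norm_num
      refine ⟨h1, fun u hu => ?_⟩
      rw [ha' 0 u hu]
      exact sum_nonneg fun y hy => div_nonneg (h1 y (mem_filter.1 hy).1)
        (hDt.le.trans (hdC y (mem_filter.1 hy).1))
    | succ i ih =>
      have h1 : ∀ y ∈ C, 0 ≤ c' (i + 1) y := by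
        intro y hy
        rw [hc' i y hy]
        exact sum_nonneg fun u hu => div_nonneg (ih.2 u (mem_filter.1 hu).1)
          (hDt.le.trans (hdA u (mem_filter.1 hu).1))
      refine ⟨h1, fun u hu => ?_⟩
      rw [ha' (i + 1) u hu]
      exact sum_nonneg fun y hy => div_nonneg (h1 y (mem_filter.1 hy).1)
        (hDt.le.trans (hdC y (mem_filter.1 hy).1))
  refine push hDt hm hm' d1 d1t d1' d2 d2' d3 c4 c5 hpA hpC hpA' hpC' ?_ ?_ ?_
  · intro u hu
    rw [wx_A hθ (hDt.trans_le (hdA u hu)).ne' (fun i => ha i u hu) (fun i => ha' i u hu), hθ0,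
      one_mul, ha0 u hu]
    have := hrA u hu
    linarith
  · intro y hy
    rw [wx_C hθ' (hDt.trans_le (hdC y hy)).ne' (fun i => hc i y hy) (fun i => hc' i y hy), hθ0',
      one_mul, hc0' y hy]
    have := hrC y hy
    linarith
  · intro u hu y hy _
    rw [wx]
    have h1 : ∑ i ∈ range L, (θ (2 * i) * (a i u / dA C S u) - θ (2 * i + 1) * (c i y / dC A S y)) ≥
        ∑ i ∈ range L, (-(φ / Dt)) := by
      refine sum_le_sum fun i hi => ?_
      have g1 : 0 ≤ θ (2 * i) * (a i u / dA C S u) :=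
        mul_nonneg (hθn _).1 (div_nonneg ((hpos i).1 u hu) (hDt.le.trans (hdA u hu)))
      have g2 : c i y / dC A S y ≤ φ / Dt :=
        div_le_div₀ hφ (hcφ i (mem_range.1 hi) y hy) hDt (hdC y hy)
      have g3 : 0 ≤ c i y / dC A S y := div_nonneg ((hpos i).2 y hy) (hDt.le.trans (hdC y hy))
      have g4 : θ (2 * i + 1) * (c i y / dC A S y) ≤ c i y / dC A S y := by
        have := mul_le_mul_of_nonneg_right (hθn (2 * i + 1)).2 g3
        linarith
      linarith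
    have h2 : ∑ i ∈ range L, (θ' (2 * i) * (c' i y / dC A S y) -
        θ' (2 * i + 1) * (a' i u / dA C S u)) ≥ ∑ i ∈ range L, (-(φ / Dt)) := by
      refine sum_le_sum fun i hi => ?_
      have g1 : 0 ≤ θ' (2 * i) * (c' i y / dC A S y) :=
        mul_nonneg (hθn' _).1 (div_nonneg ((hpos' i).1 y hy) (hDt.le.trans (hdC y hy)))
      have g2 : a' i u / dA C S u ≤ φ / Dt :=
        div_le_div₀ hφ (haφ' i (mem_range.1 hi) u hu) hDt (hdA u hu)
      have g3 : 0 ≤ a' i u / dA C S u := div_nonneg ((hpos' i).2 u hu) (hDt.le.trans (hdA u hu))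
      have g4 : θ' (2 * i + 1) * (a' i u / dA C S u) ≤ a' i u / dA C S u := by
        have := mul_le_mul_of_nonneg_right (hθn' (2 * i + 1)).2 g3
        linarith
      linarith
    rw [sum_const, card_range, nsmul_eq_mul] at h1 h2
    linarith

end Walk

end Pool.Agent.Work.MP_db9399_as.helper89
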